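import Pool.Agent.Work.MP_a60482_kc.Final

/-!
# The Kuenneth standard conjecture and determinant lines

In every Weil cohomology theory, the Kuenneth conjecture for all varieties is equivalent to
the algebraicity of some power of the determinant line of the middle cohomology, for all
varieties whose dimension lies in a given infinite set of even numbers.
-/

open CategoryTheory MonoidalCategory CartesianMonoidalCategory

universe u v w x

namespace Pool.Agent.Results.MP_a60482_ag.Determinants

open Pool.KC

/-- `E` is an elliptic curve: `H^0(E) = K`, `H^1(E) ≠ 0`, and there is a point class. -/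
theorem result {V : Type u} [Category.{v} V] [CartesianMonoidalCategory V]
    {K : Type x} [Field K] [CharZero K] (D : WeilData.{u, v, w, x} V K) (hD : D.IsWeil)
    (E : V) (hE : D.dim E = 1) (hE0 : ∀ a ∈ D.deg E 0, ∃ c : K, a = c • (1 : D.H E))
    (hE1 : D.deg E 1 ≠ ⊥) (hE2 : ∃ p ∈ D.C E 1, D.int p ≠ 0)
    (N : Set ℕ) (hN : ∀ n ∈ N, Even n) (hN' : N.Infinite) :
    (∀ X : V, D.ConjC X) ↔ ∀ X : V, D.dim X ∈ N → D.DetPowerAlgebraic X (D.dim X) :=
  WeilData.forall_conjC_iff_det hD E hE hE0 hE1 hE2 N hN hN'

end Pool.Agent.Results.MP_a60482_ag.Determinants
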