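import Pool.Agent.Work.MP_a60482_kc.Fam

/-!
# One rational cycle for all Weil cohomology theories, and a numerical criterion
-/

open CategoryTheory MonoidalCategory CartesianMonoidalCategory

universe u v w x y z

namespace Pool.Agent.Results.MP_a60482_ag.OneCycle

open Pool.KC

/-- Let `D l`, for `l : ι`, be Weil cohomology theories with coefficients in fields `K l` of
characteristic zero and with cycle class maps from the same theory `Z` of cycles with rational
coefficients.  Let `X` be such that, for every self-correspondence `a` in `Z^n(X × X)`,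
`n = dim X`, and every `i`, the trace of `a` on `H^i(X)` is a rational number which does not
depend on `l` (hypothesis `hT`).  Let `p l i` be the Kuenneth components of the diagonal of
`X` in the theory `D l`.

* Every sum of Kuenneth components which is algebraic (over `K l`) for one `l` is the class of
  one and the same rational cycle for all `l`.
* The following are equivalent: `C(X)` for one `l`; `C(X)` for all `l`; there are rational
  cycles `a i` whose classes are the Kuenneth components for all `l`; there are rational cycles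
  `a i` which are numerically equivalent to the Kuenneth components and idempotent up to
  numerical equivalence; the same for one `l` with coefficients in `K l`. -/
theorem result {V : Type u} [Category.{v} V] [CartesianMonoidalCategory V]
    (Z : CycleTheory.{u, v, y} V) {ι : Type z} [Nonempty ι] (K : ι → Type x)
    [∀ l, Field (K l)] [∀ l, CharZero (K l)] (D : ∀ l, WeilData.{u, v, w, x} V (K l))
    (hD : ∀ l, (D l).IsWeil) (c : ∀ l, CycleClassMap Z (D l)) (X : V)
    (hT : ∀ (a : Z.Z (X ⊗ X) (Z.dim X)) (i : ℕ), ∃ q : ℚ, ∀ l,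
      (D l).traceOn i ((c l).cl _ _ a) = (q : K l))
    (p : ∀ l, ℕ → (D l).H (X ⊗ X)) (hp : ∀ l, (D l).IsKunneth X (p l)) :
    (∀ S ⊆ Finset.range (2 * Z.dim X + 1),
      (∃ l, ∑ i ∈ S, p l i ∈ (D l).C (X ⊗ X) (Z.dim X)) →
        ∃ a : Z.Z (X ⊗ X) (Z.dim X), ∀ l, (c l).cl _ _ a = ∑ i ∈ S, p l i) ∧
    List.TFAE [
      ∃ l, (D l).ConjC X,
      ∀ l, (D l).ConjC X,
      ∃ a : ℕ → Z.Z (X ⊗ X) (Z.dim X), ∀ l, ∀ i ≤ 2 * Z.dim X, (c l).cl _ _ (a i) = p l i,
      ∃ a : ℕ → Z.Z (X ⊗ X) (Z.dim X), ∀ l, ∀ i ≤ 2 * Z.dim X,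
        (D l).NumEq (Z.dim X) ((c l).cl _ _ (a i)) (p l i) ∧
        (D l).NumEq (Z.dim X) ((D l).comp ((c l).cl _ _ (a i)) ((c l).cl _ _ (a i)))
          ((c l).cl _ _ (a i)),
      ∃ l, ∃ b : ℕ → (D l).H (X ⊗ X), ∀ i ≤ 2 * Z.dim X,
        b i ∈ (D l).C (X ⊗ X) (Z.dim X) ∧ (D l).NumEq (Z.dim X) (b i) (p l i) ∧
          (D l).NumEq (Z.dim X) ((D l).comp (b i) (b i)) (b i)] :=
  ⟨fun S hS h => h.elim fun o ho => exists_cycle hD c X hT p hp S hS o ho,
    one_cycle_tfae hD c X hT p hp⟩

end Pool.Agent.Results.MP_a60482_ag.OneCycle
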